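import Mathlib
import Pool.Agent.Q264.KS.Stm3

/-!
# Lemma AE of project KS (dimension three)
-/

set_option autoImplicit false

namespace Pool.Agent.Q231.KS

open MeasureTheory Module Pool.Agent.Q264.KS

universe u

theorem t_AE : S_AE.{u} := by
  intro X _ _ _ z O hO hne
  letI : MeasurableSpace X := borel X
  haveI : BorelSpace X := ⟨rfl⟩
  let μ : Measure X := Measure.addHaar
  have hL : LipschitzWith 1 (fun y : X => ‖y‖) := lipschitzWith_one_norm
  have hae : μ {y : X | ¬ Sm y} = 0 := by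
    have h := hL.ae_differentiableAt (μ := μ)
    exact MeasureTheory.ae_iff.mp h
  have hk : ∀ k : ℕ, μ {x : X | ¬ Sm (z + ((1 / 2 : ℝ) ^ k) • (x - z))} = 0 := by
    intro k
    have hc : ((1 / 2 : ℝ) ^ k) ≠ 0 := by positivity
    have hset : {x : X | ¬ Sm (z + ((1 / 2 : ℝ) ^ k) • (x - z))} =
        (fun x : X => ((1 / 2 : ℝ) ^ k) • x) ⁻¹'
          ((fun y : X => y + (z - ((1 / 2 : ℝ) ^ k) • z)) ⁻¹' {y : X | ¬ Sm y}) := by
      ext x
      have : z + ((1 / 2 : ℝ) ^ k) • (x - z) =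
          ((1 / 2 : ℝ) ^ k) • x + (z - ((1 / 2 : ℝ) ^ k) • z) := by
        rw [smul_sub]; abel
      simp only [Set.mem_setOf_eq, Set.mem_preimage, this]
    rw [hset, Measure.addHaar_preimage_smul μ hc, measure_preimage_add_right, hae, mul_zero]
  by_contra hcon
  push Not at hcon
  have hsub : O ⊆ ⋃ k : ℕ, {x : X | ¬ Sm (z + ((1 / 2 : ℝ) ^ k) • (x - z))} := by
    intro x hx
    obtain ⟨k, hk'⟩ := hcon x hx
    exact Set.mem_iUnion.mpr ⟨k, hk'⟩
  have h0 : μ O = 0 := measure_mono_null hsub (measure_iUnion_null hk)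
  exact (hO.measure_pos μ hne).ne' h0

end Pool.Agent.Q231.KS
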