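import Mathlib
import Pool.Agent.Q264.KS.Stm4

/-!
# Lemma FC of project KS
-/

set_option autoImplicit false

namespace Pool.Agent.Q231.KS.FCN

open Module Pool.Agent.Q264.KS

universe u

section aux
variable {X : Type*} [NormedAddCommGroup X] [NormedSpace ℝ X] {n : ℕ}

theorem prod_upd (h : Fin n → X →L[ℝ] ℝ) (i : Fin n) (h' : X →L[ℝ] ℝ) (p : X) :
    ∏ k, (Function.update h i h') k p = h' p * ∏ k ∈ Finset.univ.erase i, h k p := by
  rw [← Finset.mul_prod_erase Finset.univ _ (Finset.mem_univ i)]
  rw [Function.update_self]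
  congr 1
  apply Finset.prod_congr rfl
  intro k hk
  rw [Function.update_of_ne (Finset.ne_of_mem_erase hk)]

theorem dt_upd (b : Basis (Fin n) ℝ X) (h : Fin n → X →L[ℝ] ℝ) (i : Fin n) (h' : X →L[ℝ] ℝ) :
    dt b (Function.update h i h') =
      h' (∑ j, (Matrix.of fun a j => h a (b j)).adjugate j i • b j) := by
  have hM : (Matrix.of fun a j => (Function.update h i h') a (b j)) =
      (Matrix.of fun a j => h a (b j)).updateRow i (fun j => h' (b j)) := by
    ext a j
    by_cases ha : a = i
    · subst ha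
      simp
    · simp [Matrix.updateRow_ne ha, Function.update_of_ne ha]
  unfold dt
  rw [hM, ← Matrix.cramer_transpose_apply, Matrix.cramer_eq_adjugate_mulVec,
    ← Matrix.adjugate_transpose]
  simp only [Matrix.mulVec, dotProduct, Matrix.transpose_apply, map_sum, map_smul, smul_eq_mul]

/-- the representing vector -/
noncomputable def wv (b : Basis (Fin n) ℝ X) (p : X) (h : Fin n → X →L[ℝ] ℝ) (i : Fin n) : X :=
  (∑ j, (Matrix.of fun a j => h a (b j)).adjugate j i • b j) +
    (∏ k ∈ Finset.univ.erase i, h k p) • p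

theorem FF_upd (b : Basis (Fin n) ℝ X) (p : X) (h : Fin n → X →L[ℝ] ℝ) (i : Fin n)
    (h' : X →L[ℝ] ℝ) : FF b p (Function.update h i h') = h' (wv b p h i) := by
  unfold FF wv
  rw [dt_upd, prod_upd, map_add, map_smul, smul_eq_mul, mul_comm (h' p)]

theorem dt_eq (b : Basis (Fin n) ℝ X) (h : Fin n → X →L[ℝ] ℝ) {i k : Fin n} (hk : k ≠ i) :
    dt b (Function.update h i (h k)) = 0 := by
  unfold dt
  apply Matrix.det_zero_of_row_eq hk
  funext j
  simp [Matrix.of_apply, Function.update_of_ne hk]

theorem norm_le_one {g : X →L[ℝ] ℝ} (hg : ∀ y, g y ≤ ‖y‖) : ‖g‖ ≤ 1 := by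
  apply ContinuousLinearMap.opNorm_le_bound _ zero_le_one
  intro y
  rw [one_mul, Real.norm_eq_abs, abs_le]
  constructor
  · have := hg (-y)
    rw [map_neg, norm_neg] at this
    linarith
  · exact hg y

theorem le_of_norm {g : X →L[ℝ] ℝ} (hg : ‖g‖ ≤ 1) (y : X) : g y ≤ ‖y‖ :=
  calc g y ≤ ‖g y‖ := Real.le_norm_self _
    _ ≤ ‖g‖ * ‖y‖ := g.le_opNorm y
    _ ≤ 1 * ‖y‖ := mul_le_mul_of_nonneg_right hg (norm_nonneg y)
    _ = ‖y‖ := one_mul _

end aux

theorem t_FC : S_FC.{u} := by
  intro hFA hFB X _ _ _ n hfin hn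
  classical
  let b : Basis (Fin n) ℝ X := (finBasis ℝ X).reindex (finCongr hfin)
  obtain ⟨O, hO, hOne, hOp⟩ := hFA X n b hn
  obtain ⟨p, hpO, ⟨h, hmx⟩, L, hL⟩ := hFB X n b O hO hOne
  obtain ⟨hD, hP⟩ := hOp p hpO h hmx
  have hη : ∀ i, h i p ≠ 0 := fun i => (Finset.prod_ne_zero_iff.mp hP.ne') i (Finset.mem_univ i)
  have hp0 : p ≠ 0 := by
    intro h0
    have := hη ⟨0, by omega⟩
    rw [h0, map_zero] at this
    exact this rfl
  obtain ⟨P, hPd⟩ : ∃ P : ℝ, P = ∏ i, h i p := ⟨_, rfl⟩
  obtain ⟨F, hFd⟩ : ∃ F : ℝ, F = FF b p h := ⟨_, rfl⟩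
  have hFe : F = dt b h + P := by rw [hFd, hPd]; rfl
  have hPp : 0 < P := by rw [hPd]; exact hP
  have hFp : 0 < F := by rw [hFe]; linarith
  have hc : ∀ i, (∏ k ∈ Finset.univ.erase i, h k p) * h i p = P := by
    intro i
    rw [hPd]
    exact Finset.prod_erase_mul Finset.univ _ (Finset.mem_univ i)
  have hc0 : ∀ i, (∏ k ∈ Finset.univ.erase i, h k p) ≠ 0 := fun i =>
    Finset.prod_ne_zero_iff.mpr fun k _ => hη k
  have hwi : ∀ i, h i (wv b p h i) = F := by
    intro i
    rw [← FF_upd, Function.update_eq_self, hFd]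
  have hwk : ∀ k i, k ≠ i → h k (wv b p h i) = h k p * ∏ j ∈ Finset.univ.erase i, h j p := by
    intro k i hki
    rw [← FF_upd]
    unfold FF
    rw [dt_eq b h hki, prod_upd, zero_add]
  have hle : ∀ i (h' : X →L[ℝ] ℝ), ‖h'‖ ≤ 1 → h' (wv b p h i) ≤ F := by
    intro i h' hh'
    rw [← FF_upd, hFd]
    apply hmx.2
    intro k
    by_cases hk : k = i
    · subst hk; rw [Function.update_self]; exact hh'
    · rw [Function.update_of_ne hk]; exact hmx.1 k
  have hnw : ∀ i, ‖wv b p h i‖ = F := by
    intro i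
    apply le_antisymm
    · obtain ⟨g, hg1, hg2⟩ := exists_dual_vector'' ℝ (wv b p h i)
      have h1 := hle i g hg1
      rw [hg2] at h1
      simpa using h1
    · have h1 := le_of_norm (hmx.1 i) (wv b p h i)
      rw [hwi] at h1
      exact h1
  have hindep : LinearIndependent ℝ h := by
    rw [Fintype.linearIndependent_iff]
    intro c hcs
    have h1 : Matrix.vecMul c (Matrix.of fun i j => h i (b j)) = 0 := by
      funext j
      have h2 : (∑ i, c i • h i) (b j) = 0 := by rw [hcs]; rfl
      simp only [Matrix.vecMul, dotProduct, Matrix.of_apply, Pi.zero_apply]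
      simpa [ContinuousLinearMap.sum_apply] using h2
    have h3 := Matrix.eq_zero_of_vecMul_eq_zero (M := Matrix.of fun i j => h i (b j)) hD.ne' h1
    intro i
    exact congrFun h3 i
  refine ⟨p, P / F, fun i => F⁻¹ • wv b p h i, h, hp0, div_pos hPp hFp, ?_, ?_, ?_⟩
  · rw [div_lt_one hFp, hFe]; linarith
  · refine ⟨fun i y => le_of_norm (hmx.1 i) y, ?_, ?_, hη, ?_, hindep⟩
    · intro i
      rw [norm_smul, norm_inv, hnw, Real.norm_of_nonneg hFp.le, inv_mul_cancel₀ hFp.ne']
    · intro i
      rw [map_smul, hwi, smul_eq_mul, inv_mul_cancel₀ hFp.ne']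
    · intro k i hki
      show h k (F⁻¹ • wv b p h i) = P / F * h k p / h i p
      rw [map_smul, hwk k i hki, smul_eq_mul, ← hc i]
      have h1 := hη i
      have h2 := hFp.ne'
      field_simp
  · intro i g hg hgv
    have hgn : ‖g‖ ≤ 1 := norm_le_one hg
    have hgw : g (wv b p h i) = F := by
      have h1 : F⁻¹ * g (wv b p h i) = 1 := by
        rw [← smul_eq_mul, ← map_smul]; exact hgv
      have h2 := hFp.ne'
      field_simp at h1
      exact h1
    have hmx1 : IsMx b p (Function.update h i g) := by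
      constructor
      · intro k
        by_cases hk : k = i
        · subst hk; rw [Function.update_self]; exact hgn
        · rw [Function.update_of_ne hk]; exact hmx.1 k
      · intro h' hh'
        rw [FF_upd, hgw, hFd]
        exact hmx.2 h' hh'
    have e0 := hL h hmx
    have e1 := hL _ hmx1
    have hLp : L p = n * P := by
      rw [← e0]
      simp only [ContinuousLinearMap.sum_apply, ContinuousLinearMap.smul_apply, smul_eq_mul]
      rw [Finset.sum_congr rfl (fun j _ => hc j)]
      simp
    have hLp1 : L p = n * ∏ k, (Function.update h i g) k p := by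
      rw [← e1]
      simp only [ContinuousLinearMap.sum_apply, ContinuousLinearMap.smul_apply, smul_eq_mul]
      rw [Finset.sum_congr rfl (fun j _ =>
        Finset.prod_erase_mul Finset.univ (fun k => (Function.update h i g) k p) (Finset.mem_univ j))]
      simp
    have hn0 : (n : ℝ) ≠ 0 := by
      have : (2 : ℝ) ≤ n := by exact_mod_cast hn
      linarith
    have hPP : ∏ k, (Function.update h i g) k p = P := by
      have := hLp1.symm.trans hLp
      exact mul_left_cancel₀ hn0 this
    have hgp : g p = h i p := by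
      rw [prod_upd, ← hc i, mul_comm (∏ k ∈ Finset.univ.erase i, h k p)] at hPP
      exact mul_right_cancel₀ (hc0 i) hPP
    have hval : ∀ k, (Function.update h i g) k p = h k p := by
      intro k
      by_cases hk : k = i
      · subst hk; rw [Function.update_self]; exact hgp
      · rw [Function.update_of_ne hk]
    have e2 : ∑ j, (∏ k ∈ Finset.univ.erase j, h k p) • (Function.update h i g) j = L := by
      rw [← e1]
      apply Finset.sum_congr rfl
      intro j _
      rw [Finset.prod_congr rfl (fun k _ => hval k)]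
    have e3 : ∑ j, (∏ k ∈ Finset.univ.erase j, h k p) • ((Function.update h i g) j - h j) = 0 := by
      simp only [smul_sub, Finset.sum_sub_distrib]
      rw [e2, e0, sub_self]
    rw [Finset.sum_eq_single i] at e3
    · rw [Function.update_self] at e3
      rcases smul_eq_zero.mp e3 with h1 | h1
      · exact absurd h1 (hc0 i)
      · exact sub_eq_zero.mp h1
    · intro j _ hj
      rw [Function.update_of_ne hj, sub_self, smul_zero]
    · intro hi
      exact absurd (Finset.mem_univ i) hi

end Pool.Agent.Q231.KS.FCN
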