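import Mathlib
import Pool.Agent.Q264.KS.Stm

/-!
# Job KS-FIND
-/

set_option autoImplicit false

namespace Pool.Agent.Q231.KS

open Pool.Agent.Q264.KS Module

universe u

theorem t_FIND : S_FIND.{u} := by
  intro hA hB hC X _ _ hR
  have hex : ∀ v : X, ∃ g : X →ₗ[ℝ] ℝ, ‖v‖ = 1 → (g v = 1 ∧ ∀ z, ‖z - (2 * g z) • v‖ = ‖z‖) := by
    intro v
    by_cases hv : ‖v‖ = 1
    · obtain ⟨g, hg⟩ := hR v hv
      exact ⟨g, fun _ => hg⟩
    · exact ⟨0, fun h => absurd h hv⟩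
  choose G hG using hex
  have hsym : ∀ x y : X, ‖x‖ = 1 → ‖y‖ = 1 → G x y = G y x :=
    hC hA hB X G (fun v hv => (hG v hv).1) (fun v hv => (hG v hv).2)
  obtain ⟨s, hs⟩ : ∃ s : X → X → ℝ, ∀ x y, s x y = ‖x‖ * G (‖x‖⁻¹ • x) y :=
    ⟨fun x y => ‖x‖ * G (‖x‖⁻¹ • x) y, fun _ _ => rfl⟩
  have hunit : ∀ x : X, x ≠ 0 → ‖(‖x‖⁻¹ • x)‖ = 1 := by
    intro x hx
    rw [norm_smul, norm_inv, norm_norm, inv_mul_cancel₀ (norm_ne_zero_iff.2 hx)]
  have hback : ∀ x : X, x ≠ 0 → ‖x‖ • (‖x‖⁻¹ • x) = x := by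
    intro x hx
    rw [smul_smul, mul_inv_cancel₀ (norm_ne_zero_iff.2 hx), one_smul]
  have hss : ∀ x y, s x y = s y x := by
    intro x y
    by_cases hx : x = 0
    · subst hx
      rw [hs, hs]
      simp
    by_cases hy : y = 0
    · subst hy
      rw [hs, hs]
      simp
    have h1 : s x y = ‖x‖ * (‖y‖ * G (‖x‖⁻¹ • x) (‖y‖⁻¹ • y)) := by
      rw [hs]
      congr 1
      have : G (‖x‖⁻¹ • x) y = G (‖x‖⁻¹ • x) (‖y‖ • (‖y‖⁻¹ • y)) := by rw [hback y hy]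
      rw [this, map_smul, smul_eq_mul]
    have h2 : s y x = ‖y‖ * (‖x‖ * G (‖y‖⁻¹ • y) (‖x‖⁻¹ • x)) := by
      rw [hs]
      congr 1
      have : G (‖y‖⁻¹ • y) x = G (‖y‖⁻¹ • y) (‖x‖ • (‖x‖⁻¹ • x)) := by rw [hback x hx]
      rw [this, map_smul, smul_eq_mul]
    rw [h1, h2, hsym _ _ (hunit x hx) (hunit y hy)]
    ring
  have hadd : ∀ x y z, s x (y + z) = s x y + s x z := by
    intro x y z
    rw [hs, hs, hs, map_add, mul_add]
  have hsmul : ∀ (c : ℝ) (x y : X), s x (c • y) = c • s x y := by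
    intro c x y
    rw [hs, hs, map_smul, smul_eq_mul, smul_eq_mul]
    ring
  refine ⟨LinearMap.mk₂ ℝ s ?_ ?_ ?_ ?_, ?_, ?_⟩
  · intro x y z
    rw [hss, hadd, hss z x, hss z y]
  · intro c x y
    rw [hss, hsmul, hss y x]
  · intro x y z
    exact hadd x y z
  · intro c x y
    exact hsmul c x y
  · intro x y
    exact hss x y
  · intro x
    show s x x = ‖x‖ ^ 2
    by_cases hx : x = 0
    · subst hx
      rw [hs]
      simp
    have h1 : G (‖x‖⁻¹ • x) x = ‖x‖ := by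
      have : G (‖x‖⁻¹ • x) x = G (‖x‖⁻¹ • x) (‖x‖ • (‖x‖⁻¹ • x)) := by rw [hback x hx]
      rw [this, map_smul, smul_eq_mul, (hG _ (hunit x hx)).1, mul_one]
    rw [hs, h1, sq]

end Pool.Agent.Q231.KS
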