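import Mathlib
import Pool.Agent.Q264.KS.Stm3

/-!
# Lemma S2 of project KS (dimension three)
-/

set_option autoImplicit false

namespace Pool.Agent.Q231.KS

open Module Filter Topology Pool.Agent.Q264.KS

universe u

section aux
variable {X : Type*} [NormedAddCommGroup X] [NormedSpace ℝ X]

theorem D_le (x z : X) : D x z ≤ ‖z‖ := by
  have h1 : ‖D x‖ ≤ 1 := by
    have := norm_fderiv_le_of_lipschitz ℝ (f := fun z : X => ‖z‖) (x₀ := x) lipschitzWith_one_norm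
    simpa [D] using this
  calc D x z ≤ ‖D x z‖ := Real.le_norm_self _
    _ ≤ ‖D x‖ * ‖z‖ := (D x).le_opNorm z
    _ ≤ 1 * ‖z‖ := mul_le_mul_of_nonneg_right h1 (norm_nonneg z)
    _ = ‖z‖ := one_mul _

theorem D_self {x : X} (h : Sm x) : D x x = ‖x‖ :=
  DifferentiableAt.fderiv_norm_self h

theorem BJ_u {x y : X} {n : ℝ} (hn : n ≠ 0) : BJ (n⁻¹ • x) y ↔ BJ x y := by
  constructor
  · intro h
    have h2 : BJ (n⁻¹ • x) ((1 : ℝ) • y) := by rw [one_smul]; exact h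
    exact BJ_smul (inv_ne_zero hn) one_ne_zero h2
  · intro h
    have h2 : BJ (n • (n⁻¹ • x)) ((1 : ℝ) • y) := by
      rw [one_smul, smul_smul, mul_inv_cancel₀ hn, one_smul]; exact h
    exact BJ_smul hn one_ne_zero h2

/-- a value where doubling decreases the norm -/
theorem exists_l (h v : X) (hb : ¬ BJ h v) : ∃ l : ℝ, ‖h + (2 * l) • v‖ < ‖h + l • v‖ := by
  unfold BJ at hb
  push Not at hb
  obtain ⟨l₀, hl₀⟩ := hb
  by_contra hcon
  push Not at hcon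
  have hk : ∀ k : ℕ, ‖h + (l₀ * (1 / 2 : ℝ) ^ k) • v‖ ≤ ‖h + l₀ • v‖ := by
    intro k
    induction k with
    | zero => simp
    | succ k ih =>
      refine le_trans ?_ ih
      have := hcon (l₀ * (1 / 2 : ℝ) ^ (k + 1))
      have e : 2 * (l₀ * (1 / 2 : ℝ) ^ (k + 1)) = l₀ * (1 / 2 : ℝ) ^ k := by
        rw [pow_succ]; ring
      rw [e] at this
      exact this
  have ht : Tendsto (fun k : ℕ => ‖h + (l₀ * (1 / 2 : ℝ) ^ k) • v‖) atTop
      (𝓝 ‖h + (l₀ * 0) • v‖) := by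
    have h0 : Tendsto (fun k : ℕ => (1 / 2 : ℝ) ^ k) atTop (𝓝 0) :=
      tendsto_pow_atTop_nhds_zero_of_lt_one (by norm_num) (by norm_num)
    exact (((h0.const_mul l₀).smul_const v).const_add h).norm
  have := le_of_tendsto' ht hk
  rw [mul_zero, zero_smul, add_zero] at this
  exact absurd hl₀ (not_lt.mpr this)

end aux

theorem t_S2 : S_S2.{u} := by
  intro hBJD hUNI X _ _ _ h3 hP x₁ x₂ v hs1 hs2 hd1 hd2 hv1 hv2 hv0 hne
  classical
  -- the norms are positive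
  have hx1 : x₁ ≠ 0 := by
    intro h0
    rw [h0] at hd1
    have : x₂ = 0 := by simpa using hd1
    exact hne (by rw [h0, this])
  have hx2 : x₂ ≠ 0 := by
    intro h0
    rw [h0] at hd2
    have : x₁ = 0 := by simpa using hd2
    exact hne (by rw [h0, this])
  have hn1 : 0 < ‖x₁‖ := norm_pos_iff.mpr hx1
  have hn2 : 0 < ‖x₂‖ := norm_pos_iff.mpr hx2
  have e11 : D x₁ x₁ = ‖x₁‖ := D_self hs1
  have e22 : D x₂ x₂ = ‖x₂‖ := D_self hs2
  have e12 : 7 / 8 * ‖x₁‖ ≤ D x₁ x₂ := by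
    have h1 := D_le x₁ (x₁ - x₂)
    rw [map_sub, e11] at h1
    linarith
  have e21 : 7 / 8 * ‖x₂‖ ≤ D x₂ x₁ := by
    have h1 := D_le x₂ (x₂ - x₁)
    rw [map_sub, e22, norm_sub_rev] at h1
    linarith
  have u12 : D x₁ x₂ ≤ ‖x₂‖ := D_le _ _
  have u21 : D x₂ x₁ ≤ ‖x₁‖ := D_le _ _
  have hdet : 0 < ‖x₁‖ * ‖x₂‖ - D x₁ x₂ * D x₂ x₁ := by
    have hp12 : 0 < D x₁ x₂ := by linarith
    have hp21 : 0 < D x₂ x₁ := by linarith
    rcases lt_or_eq_of_le u12 with hlt | heq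
    · nlinarith
    · exfalso
      have h1 := hUNI X x₂ hs2 (D x₁) (fun z => D_le x₁ z) heq
      exact hne h1
  -- the basis
  have key : ∀ p q r : ℝ, p • x₁ + q • x₂ + r • v = 0 → p = 0 ∧ q = 0 ∧ r = 0 := by
    intro p q r h
    have h1 : p * ‖x₁‖ + q * D x₁ x₂ = 0 := by
      have := congrArg (D x₁) h
      simpa [map_add, map_smul, e11, hv1] using this
    have h2 : p * D x₂ x₁ + q * ‖x₂‖ = 0 := by
      have := congrArg (D x₂) h
      simpa [map_add, map_smul, e22, hv2] using this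
    have hp : p * (‖x₁‖ * ‖x₂‖ - D x₁ x₂ * D x₂ x₁) = 0 := by linear_combination ‖x₂‖ * h1 - D x₁ x₂ * h2
    have hq : q * (‖x₁‖ * ‖x₂‖ - D x₁ x₂ * D x₂ x₁) = 0 := by linear_combination ‖x₁‖ * h2 - D x₂ x₁ * h1
    have hp0 : p = 0 := by
      rcases mul_eq_zero.mp hp with h | h
      · exact h
      · exact absurd h hdet.ne'
    have hq0 : q = 0 := by
      rcases mul_eq_zero.mp hq with h | h
      · exact h
      · exact absurd h hdet.ne'
    refine ⟨hp0, hq0, ?_⟩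
    rw [hp0, hq0, zero_smul, zero_smul, zero_add, zero_add] at h
    rcases smul_eq_zero.mp h with h | h
    · exact h
    · exact absurd h hv0
  have hli : LinearIndependent ℝ ![x₁, x₂, v] := by
    rw [Fintype.linearIndependent_iff]
    intro g hg
    rw [Fin.sum_univ_three] at hg
    have h := key (g 0) (g 1) (g 2) (by simpa using hg)
    intro i
    fin_cases i
    · exact h.1
    · exact h.2.1
    · exact h.2.2
  let bs : Basis (Fin 3) ℝ X := basisOfLinearIndependentOfCardEqFinrank hli (by simp [h3])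
  have hb0 : bs 0 = x₁ := by simp [bs]
  have hb1 : bs 1 = x₂ := by simp [bs]
  have hb2 : bs 2 = v := by simp [bs]
  obtain ⟨p, hpdef⟩ : ∃ p : X →ₗ[ℝ] ℝ, p = bs.coord 0 := ⟨_, rfl⟩
  obtain ⟨q, hqdef⟩ : ∃ q : X →ₗ[ℝ] ℝ, q = bs.coord 1 := ⟨_, rfl⟩
  obtain ⟨φ, hφdef⟩ : ∃ φ : X →ₗ[ℝ] ℝ, φ = bs.coord 2 := ⟨_, rfl⟩
  have hrep : ∀ z, z = p z • x₁ + q z • x₂ + φ z • v := by
    intro z
    have h1 := bs.sum_repr z
    rw [Fin.sum_univ_three, hb0, hb1, hb2] at h1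
    rw [hpdef, hqdef, hφdef]
    simp only [Basis.coord_apply]
    exact h1.symm
  have huniq : ∀ (z : X) (a b c : ℝ), z = a • x₁ + b • x₂ + c • v → p z = a ∧ q z = b ∧ φ z = c := by
    intro z a b c hz
    have h1 : (p z - a) • x₁ + (q z - b) • x₂ + (φ z - c) • v = 0 := by
      have h2 : (p z • x₁ + q z • x₂ + φ z • v) - (a • x₁ + b • x₂ + c • v) = 0 := by
        rw [← hrep z, ← hz, sub_self]
      rw [← h2]
      simp only [sub_smul]
      abel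
    obtain ⟨ha, hb, hc⟩ := key _ _ _ h1
    exact ⟨sub_eq_zero.mp ha, sub_eq_zero.mp hb, sub_eq_zero.mp hc⟩
  have hx1c := huniq x₁ 1 0 0 (by simp)
  have hx2c := huniq x₂ 0 1 0 (by simp)
  have hvc := huniq v 0 0 1 (by simp)
  -- the operator
  let T : X →ₗ[ℝ] X := LinearMap.id + φ.smulRight v
  have hT : ∀ z, T z = z + φ z • v := fun z => by simp [T]
  have hT1 : T x₁ = x₁ := by rw [hT, hx1c.2.2, zero_smul, add_zero]
  have hT2 : T x₂ = x₂ := by rw [hT, hx2c.2.2, zero_smul, add_zero]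
  have hTcont : Continuous T := LinearMap.continuous_of_finiteDimensional T
  have hpcont : Continuous p := LinearMap.continuous_of_finiteDimensional p
  have hqcont : Continuous q := LinearMap.continuous_of_finiteDimensional q
  intro a b ha hb
  by_contra hnb
  obtain ⟨l', hl'⟩ := exists_l _ _ hnb
  set z' : X := a • x₁ + b • x₂ + l' • v with hz'
  have hz'c := huniq z' a b l' hz'
  have hTz' : T z' = a • x₁ + b • x₂ + (2 * l') • v := by
    rw [hT, hz'c.2.2, hz', two_mul, add_smul]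
    abel
  have hlt' : ‖T z'‖ < ‖z'‖ := by rw [hTz']; exact hl'
  have hz'n : 0 < ‖z'‖ := lt_of_le_of_lt (norm_nonneg _) hlt'
  -- minimise on the compact set
  let S : Set X := {z | 0 ≤ p z ∧ 0 ≤ q z} ∩ Metric.sphere 0 1
  have hcone : ∀ z : X, 0 ≤ p z → 0 ≤ q z → z ≠ 0 → ‖z‖⁻¹ • z ∈ S := by
    intro z hpz hqz hz0
    refine ⟨⟨?_, ?_⟩, ?_⟩
    · rw [map_smul]; exact mul_nonneg (inv_nonneg.mpr (norm_nonneg z)) hpz
    · rw [map_smul]; exact mul_nonneg (inv_nonneg.mpr (norm_nonneg z)) hqz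
    · rw [mem_sphere_zero_iff_norm, norm_smul, norm_inv, norm_norm,
        inv_mul_cancel₀ (norm_ne_zero_iff.mpr hz0)]
  have hScomp : IsCompact S := by
    have : IsClosed {z : X | 0 ≤ p z ∧ 0 ≤ q z} :=
      (isClosed_le continuous_const hpcont).inter (isClosed_le continuous_const hqcont)
    exact (isCompact_sphere (0 : X) 1).inter_left this
  have hz'0 : z' ≠ 0 := norm_pos_iff.mp hz'n
  have hz'S : ‖z'‖⁻¹ • z' ∈ S := by
    apply hcone z' _ _ hz'0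
    · rw [hz'c.1]; exact ha
    · rw [hz'c.2.1]; exact hb
  obtain ⟨x₃, hx3S, hx3min⟩ := hScomp.exists_isMinOn ⟨_, hz'S⟩ (hTcont.norm.continuousOn)
  have hmin : ∀ z ∈ S, ‖T x₃‖ ≤ ‖T z‖ := fun z hz => hx3min hz
  have hn3 : ‖x₃‖ = 1 := mem_sphere_zero_iff_norm.mp hx3S.2
  have hm1 : ‖T x₃‖ < 1 := by
    refine lt_of_le_of_lt (hmin _ hz'S) ?_
    rw [map_smul, norm_smul, norm_inv, norm_norm, inv_mul_lt_iff₀ hz'n, mul_one]
    exact hlt'
  have hcl : ∀ z : X, 0 ≤ p z → 0 ≤ q z → ‖T x₃‖ * ‖z‖ ≤ ‖T z‖ := by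
    intro z hpz hqz
    by_cases hz0 : z = 0
    · rw [hz0]; simp
    · have h1 := hmin _ (hcone z hpz hqz hz0)
      rw [map_smul, norm_smul, norm_inv, norm_norm, ← div_eq_inv_mul,
        le_div_iff₀ (norm_pos_iff.mpr hz0)] at h1
      exact h1
  obtain ⟨a₁, ha₁⟩ : ∃ a₁, a₁ = p x₃ := ⟨_, rfl⟩
  obtain ⟨a₂, ha₂⟩ : ∃ a₂, a₂ = q x₃ := ⟨_, rfl⟩
  obtain ⟨l, hl⟩ : ∃ l, l = φ x₃ := ⟨_, rfl⟩
  have hx3 : x₃ = a₁ • x₁ + a₂ • x₂ + l • v := by rw [ha₁, ha₂, hl]; exact hrep x₃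
  have ha1n : 0 ≤ a₁ := by rw [ha₁]; exact hx3S.1.1
  have ha2n : 0 ≤ a₂ := by rw [ha₂]; exact hx3S.1.2
  have hTx3 : T x₃ = x₃ + l • v := by rw [hT, hl]
  -- positivity of the coefficients
  have hgen : ∀ (x : X), Sm x → D x v = 0 → ∀ c : ℝ, 0 ≤ c → x₃ = c • x + l • v → False := by
    intro x hx hxv c hc hxe
    have h1 : ‖c • x‖ ≤ ‖T x₃‖ := by
      have h2 := D_le x (T x₃)
      have h4 : D x (T x₃) = c * ‖x‖ := by
        rw [hTx3, hxe, map_add, map_add, map_smul, map_smul, hxv, D_self hx]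
        simp
      rw [h4] at h2
      rw [norm_smul, Real.norm_of_nonneg hc]
      exact h2
    have h5 : x₃ = (1 / 2 : ℝ) • (c • x) + (1 / 2 : ℝ) • T x₃ := by
      rw [hTx3]
      nth_rewrite 2 [hxe]
      rw [hxe]
      module
    have h6 : ‖x₃‖ ≤ 1 / 2 * ‖c • x‖ + 1 / 2 * ‖T x₃‖ := by
      calc ‖x₃‖ = ‖(1 / 2 : ℝ) • (c • x) + (1 / 2 : ℝ) • T x₃‖ := by rw [← h5]
        _ ≤ ‖(1 / 2 : ℝ) • (c • x)‖ + ‖(1 / 2 : ℝ) • T x₃‖ := norm_add_le _ _
        _ = 1 / 2 * ‖c • x‖ + 1 / 2 * ‖T x₃‖ := by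
            rw [norm_smul (1 / 2 : ℝ) (c • x), norm_smul (1 / 2 : ℝ) (T x₃),
              Real.norm_of_nonneg (by norm_num : (0 : ℝ) ≤ 1 / 2)]
    rw [hn3] at h6
    linarith
  have ha2p : 0 < a₂ := by
    rcases lt_or_eq_of_le ha2n with h | h
    · exact h
    · exfalso
      apply hgen x₁ hs1 hv1 a₁ ha1n
      rw [hx3, ← h, zero_smul, add_zero]
  have ha1p : 0 < a₁ := by
    rcases lt_or_eq_of_le ha1n with h | h
    · exact h
    · exfalso
      apply hgen x₂ hs2 hv2 a₂ ha2n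
      rw [hx3, ← h, zero_smul, zero_add]
  have hl0 : l ≠ 0 := by
    intro h0
    rw [hTx3, h0, zero_smul, add_zero, hn3] at hm1
    exact lt_irrefl _ hm1
  -- T preserves orthogonality at the three points
  have hP3 : Pres T x₃ := by
    intro y hy
    have hδ1 : 0 < a₁ / (|p y| + 1) := by positivity
    have hδ2 : 0 < a₂ / (|q y| + 1) := by positivity
    apply BJ_of_small (δ := min (a₁ / (|p y| + 1)) (a₂ / (|q y| + 1))) (lt_min hδ1 hδ2)
    intro t ht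
    have ht1 : |t| < a₁ / (|p y| + 1) := lt_of_lt_of_le ht (min_le_left _ _)
    have ht2 : |t| < a₂ / (|q y| + 1) := lt_of_lt_of_le ht (min_le_right _ _)
    have hp1 : 0 ≤ p (x₃ + t • y) := by
      rw [map_add, map_smul, ← ha₁, smul_eq_mul]
      rw [lt_div_iff₀ (by positivity)] at ht1
      have h1 : |t * p y| ≤ |t| * (|p y| + 1) := by
        rw [abs_mul]; nlinarith [abs_nonneg t, abs_nonneg (p y)]
      have h2 := neg_abs_le (t * p y)
      linarith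
    have hq1 : 0 ≤ q (x₃ + t • y) := by
      rw [map_add, map_smul, ← ha₂, smul_eq_mul]
      rw [lt_div_iff₀ (by positivity)] at ht2
      have h1 : |t * q y| ≤ |t| * (|q y| + 1) := by
        rw [abs_mul]; nlinarith [abs_nonneg t, abs_nonneg (q y)]
      have h2 := neg_abs_le (t * q y)
      linarith
    have h1 := hcl _ hp1 hq1
    have h2 := hy t
    rw [hn3] at h2
    have h3' : T (x₃ + t • y) = T x₃ + t • T y := by rw [map_add, map_smul]
    rw [h3'] at h1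
    have h4 : ‖T x₃‖ * 1 ≤ ‖T x₃‖ * ‖x₃ + t • y‖ := mul_le_mul_of_nonneg_left h2 (norm_nonneg _)
    linarith
  have hPi : ∀ x : X, Sm x → D x v = 0 → T x = x → ∀ n : ℝ, n ≠ 0 → Pres T (n⁻¹ • x) := by
    intro x hx hxv hTx n hn y hy
    rw [map_smul, hTx, BJ_u hn]
    rw [BJ_u hn] at hy
    have h1 : D x y = 0 := (hBJD X x hx y).mp hy
    refine (hBJD X x hx (T y)).mpr ?_
    show D x (T y) = 0
    rw [hT, map_add, map_smul, h1, hxv]
    simp
  -- the three unit vectors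
  have hd1x : D x₁ x₃ = a₁ * ‖x₁‖ + a₂ * D x₁ x₂ := by
    rw [hx3]; simp only [map_add, map_smul, e11, hv1, smul_eq_mul]; ring
  have hd2x : D x₂ x₃ = a₁ * D x₂ x₁ + a₂ * ‖x₂‖ := by
    rw [hx3]; simp only [map_add, map_smul, e22, hv2, smul_eq_mul]; ring
  have hp12 : 0 < D x₁ x₂ := by linarith
  have hp21 : 0 < D x₂ x₁ := by linarith
  have hd1p : 0 < D x₁ x₃ := by rw [hd1x]; positivity
  have hd2p : 0 < D x₂ x₃ := by rw [hd2x]; positivity
  have hbd1 : a₂ * (7 / 8 * ‖x₁‖) ≤ 1 := by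
    have h1 := D_le x₁ x₃
    rw [hd1x, hn3] at h1
    nlinarith [mul_le_mul_of_nonneg_left e12 ha2n, mul_nonneg ha1n hn1.le]
  have hbd2 : a₁ * (7 / 8 * ‖x₂‖) ≤ 1 := by
    have h1 := D_le x₂ x₃
    rw [hd2x, hn3] at h1
    nlinarith [mul_le_mul_of_nonneg_left e21 ha1n, mul_nonneg ha2n hn2.le]
  have hnDi : ∀ x : X, Sm x → ∀ (n : ℝ), n ≠ 0 → ∀ y, D x y ≠ 0 → ¬ BJ (n⁻¹ • x) y := by
    intro x hx n hn y hy hB
    rw [BJ_u hn] at hB
    exact hy ((hBJD X x hx y).mp hB)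
  have hhalf : ∀ (x y : X) (c : ℝ), 0 ≤ c → c * (7 / 8 * ‖x‖) ≤ 1 → ‖x - y‖ ≤ ‖x‖ / 8 → ∀ d : ℝ,
      x₃ - (1 / 2 : ℝ) • (d • x) = (1 / 2 : ℝ) • T x₃ + (c / 2) • (y - x) → 0 < ‖x‖ →
      ¬ BJ x₃ (‖x‖⁻¹ • x) := by
    intro x y c hc hc2 hxy d he hxn hB
    have h1 := hB (-(1 / 2 * d * ‖x‖))
    have h2 : x₃ + (-(1 / 2 * d * ‖x‖)) • (‖x‖⁻¹ • x) = x₃ - (1 / 2 : ℝ) • (d • x) := by
      rw [smul_smul, smul_smul, neg_mul, mul_assoc, mul_inv_cancel₀ hxn.ne', mul_one, neg_smul,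
        sub_eq_add_neg]
    rw [h2, he, hn3] at h1
    have h3' : ‖(1 / 2 : ℝ) • T x₃ + (c / 2) • (y - x)‖ ≤ 1 / 2 * ‖T x₃‖ + c / 2 * ‖y - x‖ := by
      refine (norm_add_le _ _).trans ?_
      rw [norm_smul, norm_smul, Real.norm_of_nonneg (by norm_num : (0 : ℝ) ≤ 1 / 2),
        Real.norm_of_nonneg (by positivity : (0 : ℝ) ≤ c / 2)]
    rw [norm_sub_rev] at hxy
    have h4 : c / 2 * ‖y - x‖ ≤ c / 2 * (‖x‖ / 8) := mul_le_mul_of_nonneg_left hxy (by positivity)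
    nlinarith
  have hN31 : ¬ BJ x₃ (‖x₁‖⁻¹ • x₁) := by
    apply hhalf x₁ x₂ a₂ ha2n hbd1 hd1 (a₁ + a₂) _ hn1
    rw [hTx3, hx3]
    module
  have hN32 : ¬ BJ x₃ (‖x₂‖⁻¹ • x₂) := by
    apply hhalf x₂ x₁ a₁ ha1n hbd2 (by rw [norm_sub_rev]; exact hd2) (a₁ + a₂) _ hn2
    rw [hTx3, hx3]
    module
  have hN33 : ¬ BJ x₃ x₃ := by
    intro hB
    have h1 := hB (-1)
    rw [neg_one_smul, add_neg_cancel, norm_zero, hn3] at h1
    linarith
  let w : Fin 3 → X := ![‖x₁‖⁻¹ • x₁, ‖x₂‖⁻¹ • x₂, x₃]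
  have hwn : ∀ i, ‖w i‖ = 1 := by
    intro i
    fin_cases i
    · show ‖‖x₁‖⁻¹ • x₁‖ = 1
      rw [norm_smul, norm_inv, norm_norm, inv_mul_cancel₀ hn1.ne']
    · show ‖‖x₂‖⁻¹ • x₂‖ = 1
      rw [norm_smul, norm_inv, norm_norm, inv_mul_cancel₀ hn2.ne']
    · exact hn3
  have hwB : ∀ i j, ¬ BJ (w i) (w j) := by
    intro i j
    fin_cases i <;> fin_cases j
    · refine hnDi x₁ hs1 _ hn1.ne' _ ?_
      show D x₁ (‖x₁‖⁻¹ • x₁) ≠ 0
      rw [map_smul, e11, smul_eq_mul, inv_mul_cancel₀ hn1.ne']; exact one_ne_zero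
    · refine hnDi x₁ hs1 _ hn1.ne' _ ?_
      show D x₁ (‖x₂‖⁻¹ • x₂) ≠ 0
      rw [map_smul, smul_eq_mul]; positivity
    · exact hnDi x₁ hs1 _ hn1.ne' _ hd1p.ne'
    · refine hnDi x₂ hs2 _ hn2.ne' _ ?_
      show D x₂ (‖x₁‖⁻¹ • x₁) ≠ 0
      rw [map_smul, smul_eq_mul]; positivity
    · refine hnDi x₂ hs2 _ hn2.ne' _ ?_
      show D x₂ (‖x₂‖⁻¹ • x₂) ≠ 0
      rw [map_smul, e22, smul_eq_mul, inv_mul_cancel₀ hn2.ne']; exact one_ne_zero
    · exact hnDi x₂ hs2 _ hn2.ne' _ hd2p.ne'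
    · exact hN31
    · exact hN32
    · exact hN33
  have hwP : ∀ i, Pres T (w i) := by
    intro i
    fin_cases i
    · exact hPi x₁ hs1 hv1 hT1 _ hn1.ne'
    · exact hPi x₂ hs2 hv2 hT2 _ hn2.ne'
    · exact hP3
  have hwli : LinearIndependent ℝ w := by
    rw [Fintype.linearIndependent_iff]
    intro g hg
    rw [Fin.sum_univ_three] at hg
    have hg' : g 0 • (‖x₁‖⁻¹ • x₁) + g 1 • (‖x₂‖⁻¹ • x₂) + g 2 • x₃ = 0 := hg
    have h1 : (g 0 * ‖x₁‖⁻¹ + g 2 * a₁) • x₁ + (g 1 * ‖x₂‖⁻¹ + g 2 * a₂) • x₂ + (g 2 * l) • v = 0 := by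
      rw [← hg', hx3]
      module
    obtain ⟨k1, k2, k3⟩ := key _ _ _ h1
    have g2 : g 2 = 0 := by
      rcases mul_eq_zero.mp k3 with h | h
      · exact h
      · exact absurd h hl0
    rw [g2, zero_mul, add_zero] at k1 k2
    have g0 : g 0 = 0 := by
      rcases mul_eq_zero.mp k1 with h | h
      · exact h
      · exact absurd h (inv_ne_zero hn1.ne')
    have g1 : g 1 = 0 := by
      rcases mul_eq_zero.mp k2 with h | h
      · exact h
      · exact absurd h (inv_ne_zero hn2.ne')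
    intro i
    fin_cases i
    · exact g0
    · exact g1
    · exact g2
  have hA : IsBasis (Set.range w) ∧ Conn (Set.range w) := by
    constructor
    · refine ⟨w ∘ Fin.cast h3, hwli.comp _ (Fin.cast_injective h3), ?_⟩
      rw [Set.range_comp]
      have : Set.range (Fin.cast h3) = Set.univ :=
        Set.range_eq_univ.mpr (finCongr h3).surjective
      rw [this, Set.image_univ]
    · intro A₁ A₂ hU hA1 hA2 hall
      obtain ⟨x, hx⟩ := hA1
      obtain ⟨y, hy⟩ := hA2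
      have hxA : x ∈ Set.range w := hU ▸ Set.mem_union_left _ hx
      have hyA : y ∈ Set.range w := hU ▸ Set.mem_union_right _ hy
      obtain ⟨i, rfl⟩ := hxA
      obtain ⟨j, rfl⟩ := hyA
      exact hwB i j (hall _ hx _ hy)
  have hK := (hP (Set.range w) ⟨w 0, 0, rfl⟩ (by rintro _ ⟨i, rfl⟩; exact hwn i)).mpr hA
  obtain ⟨c, U, hU, hTU⟩ := hK.1 T (by rintro _ ⟨i, rfl⟩; exact hwP i)
  have hc : ∀ z, ‖T z‖ = |c| * ‖z‖ := by
    intro z
    rw [hTU, LinearMap.smul_apply, norm_smul, hU, Real.norm_eq_abs]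
  have h1 := hc x₁
  rw [hT1] at h1
  have h2 : |c| = 1 := by
    have : (|c| - 1) * ‖x₁‖ = 0 := by linarith
    rcases mul_eq_zero.mp this with h | h
    · linarith
    · exact absurd h hn1.ne'
  have h4 := hc x₃
  rw [h2, hn3] at h4
  linarith

end Pool.Agent.Q231.KS
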